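import Pool.Agent.P.MP_ecc06a_al.Nearfield

/-!
A finite group of even order with an odd structure class of deficiency `k + 1` that has no even
option of deficiency `k` in the achievement game.
-/

namespace Pool.Agent.Results.MP_ecc06a_al.Counterexample

/-- `⌈P⌉`: the intersection of all maximal subgroups containing `P` (the whole group if none). -/
def ceil {G : Type} [Group G] (P : Set G) : Subgroup G :=
  sInf {M : Subgroup G | IsCoatom M ∧ P ⊆ M}

/-- The deficiency of `S`: the least size of a set `Q` with `⟨S ∪ Q⟩ = G`. -/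
noncomputable def deficiency {G : Type} [Group G] (S : Set G) : ℕ :=
  sInf {n : ℕ | ∃ Q : Finset G, Q.card = n ∧ Subgroup.closure (S ∪ (Q : Set G)) = ⊤}

/-- The class `X_L` is an option of the class `X_I`: some nonterminal position `P` with
`⌈P⌉ = I` has an option `P ∪ {g}`, `g ∉ P`, with `⌈P ∪ {g}⌉ = L`. -/
def IsOption {G : Type} [Group G] (I L : Subgroup G) : Prop :=
  ∃ (P : Set G) (g : G), Subgroup.closure P ≠ ⊤ ∧ ceil P = I ∧ g ∉ P ∧ ceil (insert g P) = L

open Pool.Agent.P.MP_ecc06a_al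

lemma subset_ceil {Γ : Type} [Group Γ] (P : Set Γ) : P ⊆ ceil P := fun _ hx =>
  Subgroup.mem_sInf.2 fun _ hM => hM.2 hx

lemma ceil_le {Γ : Type} [Group Γ] {P : Set Γ} {M : Subgroup Γ} (hM : IsCoatom M) (hP : P ⊆ M) :
    ceil P ≤ M := sInf_le ⟨hM, hP⟩

lemma ceil_empty : ceil (∅ : Set G) = ⊥ := by
  rw [eq_bot_iff, ← St_inf]
  exact le_inf (ceil_le (St_coatom _) (Set.empty_subset _))
    (ceil_le (St_coatom _) (Set.empty_subset _))

lemma def_bot : deficiency ((⊥ : Subgroup G) : Set G) = 2 := by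
  classical
  refine IsLeast.csInf_eq ⟨⟨{g1, g2}, Finset.card_pair g1_ne_g2, ?_⟩, ?_⟩
  · rw [eq_top_iff, ← gen_top]
    exact Subgroup.closure_mono (by rw [Finset.coe_pair]; exact Set.subset_union_right)
  · rintro n ⟨Q, rfl, hQ⟩
    by_contra hlt
    obtain ⟨x, hx⟩ := Finset.card_le_one_iff_subset_singleton.1 (by omega : Q.card ≤ 1)
    refine not_top 1 x rfl ?_
    rw [eq_top_iff, ← hQ]
    refine Subgroup.closure_mono (Set.union_subset ?_ fun y hy => ?_)
    · simp
    · have := Finset.mem_singleton.1 (hx hy)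
      simp [this]

theorem result :
    ∃ (G : Type) (_ : Group G) (_ : Finite G), Even (Nat.card G) ∧
      ∃ (k : ℕ) (I : Subgroup G), (∃ P : Set G, Subgroup.closure P ≠ ⊤ ∧ ceil P = I) ∧
        Odd (Nat.card I) ∧ deficiency (I : Set G) = k + 1 ∧
        ∀ L : Subgroup G, IsOption I L → ¬ (Even (Nat.card L) ∧ deficiency (L : Set G) = k) := by
  refine ⟨G, inferInstance, inferInstance, by rw [card_G]; decide, 1, ⊥,
    ⟨∅, fun h => not_top 1 1 rfl ?_, ceil_empty⟩, by simp, def_bot, ?_⟩
  · rw [eq_top_iff, ← h]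
    exact Subgroup.closure_mono (Set.empty_subset _)
  rintro L ⟨P, g, -, hP, -, rfl⟩ ⟨heven, hdef⟩
  have hP1 : ∀ M : Subgroup G, g ∈ M → insert g P ⊆ M := by
    rintro M hg y (rfl | hy)
    · exact hg
    · have := subset_ceil P hy
      rw [hP] at this
      rw [Subgroup.mem_bot.1 this]
      exact M.one_mem
  by_cases hg : g.right = 1
  · have hne : {n : ℕ | ∃ Q : Finset G, Q.card = n ∧
        Subgroup.closure ((ceil (insert g P) : Set G) ∪ (Q : Set G)) = ⊤}.Nonempty := by
      by_contra h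
      rw [Set.not_nonempty_iff_eq_empty] at h
      unfold deficiency at hdef
      rw [h] at hdef
      simp at hdef
    obtain ⟨Q, hQ1, hQ⟩ := Nat.sInf_mem hne
    obtain ⟨x, rfl⟩ := Finset.card_eq_one.1 (hQ1.trans hdef)
    obtain ⟨M, hM, hle⟩ := (eq_top_or_exists_le_coatom (Subgroup.closure {g, x})).resolve_left
      (not_top g x hg)
    refine hM.1 (eq_top_iff.2 ?_)
    rw [← hQ, Subgroup.closure_le]
    refine Set.union_subset (ceil_le hM (hP1 M (hle (Subgroup.subset_closure (by simp))))) ?_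
    rw [Finset.coe_singleton, Set.singleton_subset_iff]
    exact hle (Subgroup.subset_closure (by simp))
  · obtain ⟨u, hu⟩ := exists_St g hg
    have hdvd := Subgroup.card_dvd_of_le (ceil_le (St_coatom u) (hP1 _ hu))
    rw [card_St] at hdvd
    exact absurd (heven.two_dvd.trans hdvd) (by norm_num)

end Pool.Agent.Results.MP_ecc06a_al.Counterexample
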